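import Pool.Agent.TH708.Ari.ProgPerm
import Pool.Agent.TH708.Ips.Big

set_option autoImplicit false

/-!
# Narrow multilinear branching programs for the permanent and the determinant

Algebraic branching programs are the usual normal form of weakly skew circuits: a product of
matrices of affine forms.  We consider programs over any field such that every path from the source
reads every diagonal entry `(i, i)`, `i ∈ T`, at most once (in particular all syntactically
multilinear programs; the other entries may be used in any way).  The label of an edge may be the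
sum of an affine form in all variables and of an arbitrary function which depends, apart from the
other entries, on at most `|T|^(3/4)` of the diagonal entries.

If such a program of width `w ≤ |T|^(1/128)` and length `L` computes the permanent or the
determinant (on matrices with entries `0` and `1` is enough), then
`L ≥ 2 ^ ((log |T|)² / 1200) = |T| ^ (log |T| / 1200)`.

So multilinear programs of width `n^(1/128)` for the `n × n` permanent or determinant have length
`n^{Ω(log n)}`.
-/

namespace Pool.Agent.Results.MP_35c45d_lc.NarrowPrograms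

open Pool.Agent.TH708.Ari
open Pool.Agent.TH708

theorem result :
    (∀ (K : Type) [Field K] (n w L m : ℕ) (P : Prog K (Fin n × Fin n) w) (T : Finset (Fin n)),
      10 ^ 4 ≤ Nat.log 2 T.card → w ^ 128 ≤ T.card → m ^ 4 ≤ T.card ^ 3 →
      (∀ d v u ℓ, P.edge d v u = some ℓ → (T.filter fun i => (i, i) ∈ ℓ.vars).card ≤ m) →
      (∀ i ∈ T, P.deg (i, i) L P.src ≤ 1) → IsPer (P.eval L) ∨ IsDet (P.eval L) →
        2 ^ ((Nat.log 2 T.card) ^ 2 / 1200) ≤ L) ∧
    ∀ c : ℕ, ∃ N₀ : ℕ, ∀ n ≥ N₀, ∀ (K : Type) [Field K],
      ¬ ∃ (w L : ℕ) (P : Prog K (Fin n × Fin n) w), w ^ 128 ≤ n ∧ L ≤ n ^ c + c ∧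
        (∀ d v u ℓ, P.edge d v u = some ℓ → ℓ.vars = ∅) ∧
        (∀ i : Fin n, P.deg (i, i) L P.src ≤ 1) ∧ (IsPer (P.eval L) ∨ IsDet (P.eval L)) := by
  refine ⟨fun K _ n w L m P T hT hw hm hv hd hC => narrow_prog P T hT hw hm hv hd hC, ?_⟩
  intro c
  obtain ⟨N₀, hN₀⟩ := Ips.exists_big c
  refine ⟨N₀, fun n hn K _ => ?_⟩
  rintro ⟨w, L, P, h1, h2, h3, h4, h5⟩
  obtain ⟨hn1, hn2⟩ := hN₀ n hn
  have hcard : (Finset.univ : Finset (Fin n)).card = n := by
    rw [Finset.card_univ, Fintype.card_fin]
  have hb := narrow_prog (m := 0) P Finset.univ (by rw [hcard]; exact hn2)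
    (by rw [hcard]; exact h1) (by simp) (by
      intro d v u ℓ hℓ
      rw [h3 d v u ℓ hℓ]
      simp) (fun i _ => h4 i) h5
  rw [hcard] at hb
  exact Ips.big c hn1 h2 hb

end Pool.Agent.Results.MP_35c45d_lc.NarrowPrograms
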