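import Pool.Agent.TH679.MW.Perm
import Pool.Agent.TH679.MW.FewS

set_option autoImplicit false

/-!
# Skew multilinear programs with few registers for the permanent and the determinant

A program has `K` registers with values in a field `F` and the instructions `load` (an arbitrary
function of some of the input variables), `lin` (a linear combination of registers) and `mul` (a
product of two registers); the registers start with `0`.  Let `W` be a set of indices; the diagonal
entries `(i, i)` with `i ∈ W` are tracked.  We look at programs in which the two factors of a product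
never both depend on the same tracked entry, and one of the two factors has read at most
`|W|^(1 - ε)` of them.  Skew circuits (one factor of each product is a variable or a constant) and
branching programs have the second property; a layered branching program of width `w` becomes a
program with `2 w + 1` registers, and the first property says that no path reads a tracked entry
twice.

If `K ≤ |W|^(1/2 - ε)` and the program computes the permanent or the determinant on matrices with
entries `0` and `1`, over any field, then it has more than `|W|^(c log |W|)` steps, `c = ε² / 16`.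
-/

namespace Pool.Agent.Results.MP_35c45d_lc.SkewFewRegisters

open Finset Pool.Agent.TH679.MW Pool.Agent.TH708.Ari Pool.Agent.TH708.Nar

/-- On matrices with entries `0` and `1` register `out` contains the permanent after `L` steps. -/
def IsPer {F : Type} [Field F] {n K : ℕ} (P : ℕ → Instr F (Fin n × Fin n) F K) (L : ℕ)
    (out : Fin K) : Prop :=
  ∀ z : Fin n × Fin n → F, (∀ p, z p = 0 ∨ z p = 1) →
    run P z L out = (Matrix.of fun i j => z (i, j)).permanent

/-- On matrices with entries `0` and `1` register `out` contains the determinant after `L` steps. -/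
def IsDet {F : Type} [Field F] {n K : ℕ} (P : ℕ → Instr F (Fin n × Fin n) F K) (L : ℕ)
    (out : Fin K) : Prop :=
  ∀ z : Fin n × Fin n → F, (∀ p, z p = 0 ∨ z p = 1) →
    run P z L out = (Matrix.of fun i j => z (i, j)).det

/-- **Few registers, unbalanced products: `|W|^(c log |W|)` steps.** -/
theorem result (ε : ℝ) (hε : 0 < ε) (hε1 : ε ≤ 1 / 2) : ∃ n₀ : ℕ,
    ∀ (F : Type) [Field F] (n K L : ℕ) (P : ℕ → Instr F (Fin n × Fin n) F K) (out : Fin K)
      (W : Finset (Fin n)), IsPer P L out ∨ IsDet P L out → n₀ ≤ W.card →
      Multilinear P L (fun p => ∃ i ∈ W, p = (i, i)) →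
      (∀ t < L, ∀ d S f, P t = .load d S f →
        ((W.filter fun i => (i, i) ∈ S).card : ℝ) ≤ (W.card : ℝ) ^ (1 - ε)) →
      (∀ t < L, ∀ d a b, P t = .mul d a b →
        ((W.filter fun i => (i, i) ∈ vars P t a).card : ℝ) ≤ (W.card : ℝ) ^ (1 - ε) ∨
        ((W.filter fun i => (i, i) ∈ vars P t b).card : ℝ) ≤ (W.card : ℝ) ^ (1 - ε)) →
      (K : ℝ) ≤ (W.card : ℝ) ^ (1 / 2 - ε) →
      (W.card : ℝ) ^ (ε ^ 2 / 16 * Real.log W.card) < L := by
  obtain ⟨n₀, h⟩ := fewS ε hε hε1
  refine ⟨n₀, fun F _ n K L P out W hC hW hm hleaf hbal hK => ?_⟩
  exact h F (Fin n × Fin n) n K L (fun i => (i, i)) P out W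
    (fun a b hab => congrArg Prod.fst hab)
    (fun W' _ Y hY => val_full (fun z => run P z L out) hC W' Y hY) hW hm hleaf hbal hK

end Pool.Agent.Results.MP_35c45d_lc.SkewFewRegisters
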