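import Pool.Agent.TH658.Eq.Nest

set_option autoImplicit false

/-!
# Symmetric programs with gates computing invariants of matrices

The group `Γ_w = (Z/2)^{3w} × (Z/2 × Z/2)^{2w}` acts on the `n × n` matrices, `8 w ≤ n`: the first
factor by the swaps of `3 w` disjoint pairs of columns, the second by Klein four-groups (acting
regularly) on `2 w` disjoint quadruples of rows. We consider programs for the permanent the gates
of which compute arbitrary functions of conjugation invariants of tuples of matrices whose entries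
are linear combinations of the values of earlier gates and of functions of few entries of the
input, where the gates are symmetric under a group of small index up to constant conjugations.
Such programs have exponential size: determinants, characteristic polynomials, traces of iterated
products of any length (branching programs) and products over any number of factors are single
gates.
-/

namespace Pool.Agent.Results.MP_35c45d_lc.SymmetricDeterminantGates

open Pool.Agent.H30R2.PS

/-- The group `Γ_w = (Z/2)^{3w} × (Z/2 × Z/2)^{2w}`. -/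
abbrev Gam (w : ℕ) := (Fin (3 * w) → ZMod 2) × (Fin (2 * w) → ZMod 2 × ZMod 2)

/-- The action of `Γ_w` on the matrices: the row `ρ (u, s)` goes to `ρ (u, s + h.2 u)`, the column
`κ (p, c)` goes to `κ (p, c + h.1 p)`, the other rows and columns are fixed. -/
noncomputable def act {K : Type} {w n : ℕ} (ρ : Fin (2 * w) × (ZMod 2 × ZMod 2) ↪ Fin n)
    (κ : Fin (3 * w) × ZMod 2 ↪ Fin n) (h : Gam w) (X : Matrix (Fin n) (Fin n) K) :
    Matrix (Fin n) (Fin n) K :=
  X.submatrix ((quadPerm h.2).viaEmbedding ρ) ((pairPerm h.1).viaEmbedding κ)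

/-- The span of the functions of an `n × n` matrix over `K` which depend on at most `d` entries.
-/
def Local (K : Type) [Field K] (n d : ℕ) : Submodule K (Matrix (Fin n) (Fin n) K → K) :=
  Submodule.span K {g | ∃ J : Finset (Fin n × Fin n), J.card ≤ d ∧
    ∀ X Y : Matrix (Fin n) (Fin n) K, (∀ p ∈ J, X p.1 p.2 = Y p.1 p.2) → g X = g Y}

/-- Each symmetry `h` of the subgroup lifts to a constant conjugation of the tuple `M(X)` of
matrices (indexed by `Y`): `M(h X) = q M(X) q⁻¹` for all `X`. -/
def LiftsEach {ι Y X G K : Type} [Field K] [Fintype ι] [DecidableEq ι] [AddGroup G]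
    (act : G → X → X) (H : AddSubgroup G) (M : X → Y → Matrix ι ι K) : Prop :=
  ∀ h ∈ H, ∃ q : (Matrix ι ι K)ˣ, ∀ x y, M (act h x) y = q.1 * M x y * q⁻¹.1

/-- The symmetries of the subgroup lift to constant conjugations by the matrices of a linear
representation of the subgroup. -/
def LiftsLinearly {ι Y X G K : Type} [Field K] [Fintype ι] [DecidableEq ι] [AddGroup G]
    (act : G → X → X) (H : AddSubgroup G) (M : X → Y → Matrix ι ι K) : Prop :=
  ∃ ρ : H → (Matrix ι ι K)ˣ, (∀ h h', ρ (h + h') = ρ h * ρ h') ∧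
    ∀ (h : H) x y, M (act h x) y = (ρ h).1 * M x y * (ρ h)⁻¹.1

/-- The function `v` depends only on the traces of the products (of any length) of matrices of the
tuple. -/
def ByTraces {ι Y X K : Type} [Field K] [Fintype ι] [DecidableEq ι] (M : X → Y → Matrix ι ι K)
    (v : X → K) : Prop :=
  ∀ x x', (∀ ys : List Y, ((ys.map (M x)).prod).trace = ((ys.map (M x')).prod).trace) →
    v x = v x'

/-- The function `v` depends only on the simultaneous similarity class of the tuple. -/
def ByClass {ι Y X K : Type} [Field K] [Fintype ι] [DecidableEq ι] (M : X → Y → Matrix ι ι K)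
    (v : X → K) : Prop :=
  ∀ x x', (∃ q : (Matrix ι ι K)ˣ, ∀ y, M x' y = q.1 * M x y * q⁻¹.1) → v x = v x'

theorem part1 (K : Type) [Field K] (h2 : (2 : K) ≠ 0) (n w d : ℕ) (hn : 8 * w ≤ n)
    (hd : 6400 * d ≤ w) (hw : 0 < w) (ρ : Fin (2 * w) × (ZMod 2 × ZMod 2) ↪ Fin n)
    (κ : Fin (3 * w) × ZMod 2 ↪ Fin n) (s : ℕ) (N : Fin s → ℕ) (hN : ∀ j, 0 < N j)
    (Y : Fin s → Type)
    (M : ∀ j, Matrix (Fin n) (Fin n) K → Y j → Matrix (Fin (N j)) (Fin (N j)) K)
    (v : Fin s → Matrix (Fin n) (Fin n) K → K) (H : Fin s → AddSubgroup (Gam w))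
    (hent : ∀ j y a b, (fun X => M j X y a b) ∈
      Local K n d ⊔ Submodule.span K (v '' {i | i < j}))
    (hgate : ∀ j, (LiftsEach (act ρ κ) (H j) (M j) ∧ ByTraces (M j) (v j)) ∨
      (LiftsLinearly (act ρ κ) (H j) (M j) ∧ ByClass (M j) (v j)))
    (hper : (fun X : Matrix (Fin n) (Fin n) K => X.permanent) ∈
      Local K n d ⊔ Submodule.span K (Set.range v)) :
    2 ^ (w / 3200) ≤ 2 * ∑ j, N j ^ 4 * (H j).index :=
  Pool.Agent.TH658.Eq.nest h2 d hn hd ρ κ s N hN Y M v H hent hgate hper hw

/-- the action is an action by involutions -/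
theorem act_zero {K : Type} {w n : ℕ} (ρ : Fin (2 * w) × (ZMod 2 × ZMod 2) ↪ Fin n)
    (κ : Fin (3 * w) × ZMod 2 ↪ Fin n) (X : Matrix (Fin n) (Fin n) K) : act ρ κ 0 X = X := by
  have h1 : quadPerm (0 : Fin (2 * w) → ZMod 2 × ZMod 2) = 1 := by
    refine Equiv.ext fun x => Prod.ext rfl ?_
    show x.2 + 0 = x.2
    rw [add_zero]
  have h2 : pairPerm (0 : Fin (3 * w) → ZMod 2) = 1 := by
    refine Equiv.ext fun x => Prod.ext rfl ?_
    show x.2 + 0 = x.2
    rw [add_zero]
  have h3 : (0 : Gam w).2 = 0 := rfl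
  have h4 : (0 : Gam w).1 = 0 := rfl
  unfold act
  rw [h3, h4, h1, h2, ← Equiv.Perm.viaEmbeddingHom_apply, ← Equiv.Perm.viaEmbeddingHom_apply,
    map_one, map_one]
  rfl

theorem act_add {K : Type} {w n : ℕ} (ρ : Fin (2 * w) × (ZMod 2 × ZMod 2) ↪ Fin n)
    (κ : Fin (3 * w) × ZMod 2 ↪ Fin n) (h h' : Gam w) (X : Matrix (Fin n) (Fin n) K) :
    act ρ κ (h + h') X = act ρ κ h (act ρ κ h' X) := by
  have hq : ∀ U U' : Fin (2 * w) → ZMod 2 × ZMod 2,
      quadPerm (U + U') = quadPerm U' * quadPerm U := by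
    intro U U'
    refine Equiv.ext fun x => Prod.ext rfl ?_
    show x.2 + (U x.1 + U' x.1) = x.2 + U x.1 + U' x.1
    rw [add_assoc]
  have hp : ∀ a a' : Fin (3 * w) → ZMod 2, pairPerm (a + a') = pairPerm a' * pairPerm a := by
    intro a a'
    refine Equiv.ext fun x => Prod.ext rfl ?_
    show x.2 + (a x.1 + a' x.1) = x.2 + a x.1 + a' x.1
    rw [add_assoc]
  have h3 : (h + h').2 = h.2 + h'.2 := rfl
  have h4 : (h + h').1 = h.1 + h'.1 := rfl
  unfold act
  rw [h3, h4, hq, hp, ← Equiv.Perm.viaEmbeddingHom_apply, ← Equiv.Perm.viaEmbeddingHom_apply,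
    map_mul, map_mul]
  rfl

theorem gam_self {w : ℕ} (h : Gam w) : h + h = 0 := by
  have h3 : h + h = (2 : ZMod 2) • h := (two_smul (ZMod 2) h).symm
  have h4 : (2 : ZMod 2) = 0 := rfl
  rw [h3, h4, zero_smul]

theorem part2 (K : Type) [Field K] [CharZero K] (n w d : ℕ) (hn : 8 * w ≤ n)
    (hd : 6400 * d ≤ w) (hw : 0 < w) (ρ : Fin (2 * w) × (ZMod 2 × ZMod 2) ↪ Fin n)
    (κ : Fin (3 * w) × ZMod 2 ↪ Fin n) (s : ℕ) (N : Fin s → ℕ) (hN : ∀ j, 0 < N j)
    (M : ∀ j, Matrix (Fin n) (Fin n) K → Matrix (Fin (N j)) (Fin (N j)) K)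
    (F : Fin s → Polynomial K → K) (v : Fin s → Matrix (Fin n) (Fin n) K → K)
    (hv : ∀ j X, v j X = F j (M j X).charpoly)
    (hent : ∀ j a b, (fun X => M j X a b) ∈ Local K n d ⊔ Submodule.span K (v '' {i | i < j}))
    (hsym : ∀ (h : Gam w) (j : Fin s), ∃ (i : Fin s) (P : Matrix (Fin (N j)) (Fin (N i)) K)
      (Q : Matrix (Fin (N i)) (Fin (N j)) K), P * Q = 1 ∧ Q * P = 1 ∧
      ∀ X, M j (act ρ κ h X) = P * M i X * Q)
    (hper : (fun X : Matrix (Fin n) (Fin n) K => X.permanent) ∈
      Local K n d ⊔ Submodule.span K (Set.range v)) :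
    2 ^ (w / 3200) ≤ 2 * s * ∑ j, N j ^ 4 := by
  classical
  let H : Fin s → AddSubgroup (Gam w) := fun j =>
    { carrier := {h | ∃ q : (Matrix (Fin (N j)) (Fin (N j)) K)ˣ,
        ∀ X, M j (act ρ κ h X) = q.1 * M j X * q⁻¹.1}
      add_mem' := by
        rintro h h' ⟨q, hq⟩ ⟨q', hq'⟩
        refine ⟨q * q', fun X => ?_⟩
        rw [act_add, hq, hq', mul_inv_rev, Units.val_mul, Units.val_mul]
        simp only [mul_assoc]
      zero_mem' := ⟨1, fun X => by
        rw [act_zero, inv_one, Units.val_one, one_mul, mul_one]⟩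
      neg_mem' := by
        rintro h ⟨q, hq⟩
        have h1 : -h = h := neg_eq_of_add_eq_zero_left (gam_self h)
        rw [h1]
        exact ⟨q, hq⟩ }
  have hidx : ∀ j, (H j).index ≤ s := by
    intro j
    choose i P Q hPQ hQP hM using fun h => hsym h j
    have hkey : ∀ h h', i h = i h' → h + h' ∈ H j := by
      intro h h' hi
      -- transport along the equality of the indices
      have h3 : ∃ (P' : Matrix (Fin (N j)) (Fin (N (i h))) K)
          (Q' : Matrix (Fin (N (i h))) (Fin (N j)) K), P' * Q' = 1 ∧ Q' * P' = 1 ∧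
          ∀ X, M j (act ρ κ h' X) = P' * M (i h) X * Q' := by
        rw [hi]
        exact ⟨P h', Q h', hPQ h', hQP h', hM h'⟩
      obtain ⟨P', Q', h4, h5, h6⟩ := h3
      refine ⟨⟨P h * Q', P' * Q h, ?_, ?_⟩, fun X => ?_⟩
      · calc P h * Q' * (P' * Q h) = P h * (Q' * P') * Q h := by
              simp only [Matrix.mul_assoc]
          _ = 1 := by rw [h5, Matrix.mul_one, hPQ]
      · calc P' * Q h * (P h * Q') = P' * (Q h * P h) * Q' := by
              simp only [Matrix.mul_assoc]
          _ = 1 := by rw [hQP, Matrix.mul_one, h4]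
      · show M j (act ρ κ (h + h') X) = P h * Q' * M j X * (P' * Q h)
        have h7 : M j X = P' * M (i h) (act ρ κ h' X) * Q' := by
          have h8 := h6 (act ρ κ h' X)
          rw [← act_add, gam_self, act_zero] at h8
          exact h8
        rw [act_add, hM h, h7]
        calc P h * M (i h) (act ρ κ h' X) * Q h
            = P h * (1 * M (i h) (act ρ κ h' X) * 1) * Q h := by
              rw [Matrix.one_mul, Matrix.mul_one]
          _ = P h * ((Q' * P') * M (i h) (act ρ κ h' X) * (Q' * P')) * Q h := by rw [h5]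
          _ = _ := by simp only [Matrix.mul_assoc]
    have hinj : Function.Injective (fun c : Gam w ⧸ H j => i c.out) := by
      intro c c' hcc
      have h3 := hkey _ _ hcc
      rw [← QuotientAddGroup.out_eq' c, ← QuotientAddGroup.out_eq' c', QuotientAddGroup.eq]
      have h1 : -c.out = c.out := neg_eq_of_add_eq_zero_left (gam_self _)
      rw [h1]
      exact h3
    have h3 := Nat.card_le_card_of_injective _ hinj
    rw [Nat.card_eq_fintype_card (α := Fin s), Fintype.card_fin] at h3
    exact h3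
  have h1 := part1 K two_ne_zero n w d hn hd hw ρ κ s N hN (fun _ => Unit)
    (fun j X _ => M j X) v H (fun j _ a b => hent j a b) (fun j => Or.inl ⟨?_, ?_⟩) hper
  · refine h1.trans ?_
    rw [mul_assoc]
    refine Nat.mul_le_mul_left _ ?_
    rw [Finset.mul_sum]
    refine Finset.sum_le_sum fun j _ => ?_
    rw [mul_comm s]
    exact Nat.mul_le_mul_left _ (hidx j)
  · rintro h ⟨q, hq⟩
    exact ⟨q, fun X _ => hq X⟩
  · intro X X' hXX
    rw [hv, hv, Pool.Agent.TH658.Eq.charpoly_eq_of_traces (M j X) (M j X')]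
    intro k
    have h3 := hXX (List.replicate k ())
    rw [List.map_replicate, List.prod_replicate, List.map_replicate, List.prod_replicate] at h3
    exact h3

theorem part3 (K : Type) [Field K] (h2 : (2 : K) ≠ 0) (n w d : ℕ) (hn : 8 * w ≤ n)
    (hd : 6400 * d ≤ w) (hw : 0 < w) (ρ : Fin (2 * w) × (ZMod 2 × ZMod 2) ↪ Fin n)
    (κ : Fin (3 * w) × ZMod 2 ↪ Fin n) (N L : ℕ)
    (M : Matrix (Fin n) (Fin n) K → Matrix (Fin N) (Fin N) K) (a b : Fin N)
    (hent : ∀ i j, (fun X => M X i j) ∈ Local K n d)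
    (hper : ∀ X : Matrix (Fin n) (Fin n) K, X.permanent = ∑ k ∈ Finset.range L, (M X ^ k) a b)
    (H : AddSubgroup (Gam w))
    (hsym : ∀ h ∈ H, ∃ q : (Matrix (Fin N) (Fin N) K)ˣ,
      (∀ X, M (act ρ κ h X) = q.1 * M X * q⁻¹.1) ∧
      q.1.mulVec (Pi.single b 1) = Pi.single b 1 ∧
      Matrix.vecMul (Pi.single a 1) q.1 = Pi.single a 1) :
    2 ^ (w / 3200) ≤ 2 * N ^ 4 * H.index := by
  classical
  let E : Matrix (Fin N) (Fin N) K := Matrix.vecMulVec (Pi.single b 1) (Pi.single a 1)
  have htr : ∀ A : Matrix (Fin N) (Fin N) K, (A * E).trace = A a b := by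
    intro A
    show (A * Matrix.vecMulVec (Pi.single b 1) (Pi.single a 1)).trace = A a b
    rw [Matrix.mul_vecMulVec, Matrix.trace_vecMulVec, Matrix.mulVec_single_one,
      dotProduct_single, mul_one]
    rfl
  have h1 := part1 K h2 n w d hn hd hw ρ κ 1 (fun _ => N) (fun _ => Fin.pos a)
    (fun _ => Bool) (fun _ X y => if y then M X else E) (fun _ X => X.permanent) (fun _ => H)
    (fun _ y i j => ?_) (fun _ => Or.inl ⟨?_, ?_⟩)
    (Submodule.mem_sup_right (Submodule.subset_span ⟨0, rfl⟩))
  · refine h1.trans (le_of_eq ?_)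
    rw [Fin.sum_univ_one]
    ring
  · refine Submodule.mem_sup_left ?_
    cases y with
    | true => exact hent i j
    | false => exact Submodule.subset_span ⟨∅, Nat.zero_le _, fun X X' _ => rfl⟩
  · intro h hh
    obtain ⟨q, hq, hb, ha⟩ := hsym h hh
    refine ⟨q, fun X y => ?_⟩
    cases y with
    | true => exact hq X
    | false =>
      show E = q.1 * E * q⁻¹.1
      have ha' : Matrix.vecMul (Pi.single a 1) q⁻¹.1 = Pi.single a 1 := by
        have h3 := congrArg (fun r => Matrix.vecMul r q⁻¹.1) ha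
        have h4 : Matrix.vecMul (Matrix.vecMul (Pi.single a 1) q.1) q⁻¹.1 =
            Matrix.vecMul (Pi.single a 1) q⁻¹.1 := h3
        rw [Matrix.vecMul_vecMul, q.mul_inv, Matrix.vecMul_one] at h4
        exact h4.symm
      show Matrix.vecMulVec (Pi.single b 1) (Pi.single a 1) =
        q.1 * Matrix.vecMulVec (Pi.single b 1) (Pi.single a 1) * q⁻¹.1
      rw [Matrix.mul_vecMulVec, Matrix.vecMulVec_mul, hb, ha']
  · intro X X' hXX
    show X.permanent = X'.permanent
    rw [hper, hper]
    refine Finset.sum_congr rfl fun k _ => ?_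
    have h3 := hXX (List.replicate k true ++ [false])
    rw [List.map_append, List.prod_append, List.map_replicate, List.prod_replicate,
      List.map_append, List.prod_append, List.map_replicate, List.prod_replicate] at h3
    have h4 : (M X ^ k * (E * 1)).trace = (M X' ^ k * (E * 1)).trace := h3
    rw [mul_one, htr, htr] at h4
    exact h4

/-- A symmetric program with `s` gates. The gate `j` has a tuple `M j` of matrices of order `N j`
whose entries are linear combinations of values `v i` of earlier gates and of functions of at most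
`d` entries of the input, a subgroup `H j` of `Γ_w` of symmetries, and a value `v j`: a function of
the traces of the products of the matrices of the tuple if each symmetry lifts, a function of the
simultaneous similarity class if the symmetries lift to a linear representation. -/
structure Program (K : Type) [Field K] (n w d s : ℕ)
    (ρ : Fin (2 * w) × (ZMod 2 × ZMod 2) ↪ Fin n) (κ : Fin (3 * w) × ZMod 2 ↪ Fin n) where
  /-- the orders -/
  N : Fin s → ℕ
  pos : ∀ j, 0 < N j
  /-- the index sets of the tuples -/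
  Y : Fin s → Type
  /-- the tuples of matrices -/
  M : ∀ j, Matrix (Fin n) (Fin n) K → Y j → Matrix (Fin (N j)) (Fin (N j)) K
  /-- the values -/
  v : Fin s → Matrix (Fin n) (Fin n) K → K
  /-- the symmetries -/
  H : Fin s → AddSubgroup (Gam w)
  entries : ∀ j y a b, (fun X => M j X y a b) ∈
    Local K n d ⊔ Submodule.span K (v '' {i | i < j})
  gates : ∀ j, (LiftsEach (act ρ κ) (H j) (M j) ∧ ByTraces (M j) (v j)) ∨
    (LiftsLinearly (act ρ κ) (H j) (M j) ∧ ByClass (M j) (v j))

/-- A program whose gates compute functions `F j` of the characteristic polynomial of one matrix,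
the matrices being permuted by `Γ_w` up to constant similarity. -/
structure CharpolyProgram (K : Type) [Field K] (n w d s : ℕ)
    (ρ : Fin (2 * w) × (ZMod 2 × ZMod 2) ↪ Fin n) (κ : Fin (3 * w) × ZMod 2 ↪ Fin n) where
  /-- the orders -/
  N : Fin s → ℕ
  pos : ∀ j, 0 < N j
  /-- the matrices -/
  M : ∀ j, Matrix (Fin n) (Fin n) K → Matrix (Fin (N j)) (Fin (N j)) K
  /-- the functions computed by the gates -/
  F : Fin s → Polynomial K → K
  /-- the values -/
  v : Fin s → Matrix (Fin n) (Fin n) K → K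
  value : ∀ j X, v j X = F j (M j X).charpoly
  entries : ∀ j a b, (fun X => M j X a b) ∈ Local K n d ⊔ Submodule.span K (v '' {i | i < j})
  sym : ∀ (h : Gam w) (j : Fin s), ∃ (i : Fin s) (P : Matrix (Fin (N j)) (Fin (N i)) K)
    (Q : Matrix (Fin (N i)) (Fin (N j)) K), P * Q = 1 ∧ Q * P = 1 ∧
    ∀ X, M j (act ρ κ h X) = P * M i X * Q

/-- A branching program of size `N` (the matrix `M X` of its edge labels) with the start `a`, the
end `b`, computing the sum over the walks of length less than `L`; each symmetry `h` of the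
subgroup `H` lifts to a constant conjugation fixing the start and the end. -/
structure BranchingProgram (K : Type) [Field K] (n w d N L : ℕ)
    (ρ : Fin (2 * w) × (ZMod 2 × ZMod 2) ↪ Fin n) (κ : Fin (3 * w) × ZMod 2 ↪ Fin n)
    (H : AddSubgroup (Gam w)) where
  /-- the matrix of the edge labels -/
  M : Matrix (Fin n) (Fin n) K → Matrix (Fin N) (Fin N) K
  /-- the start -/
  a : Fin N
  /-- the end -/
  b : Fin N
  entries : ∀ i j, (fun X => M X i j) ∈ Local K n d
  sym : ∀ h ∈ H, ∃ q : (Matrix (Fin N) (Fin N) K)ˣ,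
    (∀ X, M (act ρ κ h X) = q.1 * M X * q⁻¹.1) ∧
    q.1.mulVec (Pi.single b 1) = Pi.single b 1 ∧
    Matrix.vecMul (Pi.single a 1) q.1 = Pi.single a 1

/-- the bound for programs -/
def ProgramBound : Prop :=
  ∀ (K : Type) [Field K], (2 : K) ≠ 0 → ∀ n w d s : ℕ, 8 * w ≤ n → 6400 * d ≤ w → 0 < w →
    ∀ (ρ : Fin (2 * w) × (ZMod 2 × ZMod 2) ↪ Fin n) (κ : Fin (3 * w) × ZMod 2 ↪ Fin n)
      (P : Program K n w d s ρ κ),
      (fun X : Matrix (Fin n) (Fin n) K => X.permanent) ∈
        Local K n d ⊔ Submodule.span K (Set.range P.v) →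
      2 ^ (w / 3200) ≤ 2 * ∑ j, P.N j ^ 4 * (P.H j).index

/-- the bound for programs with characteristic polynomials -/
def CharpolyBound : Prop :=
  ∀ (K : Type) [Field K] [CharZero K] (n w d s : ℕ), 8 * w ≤ n → 6400 * d ≤ w → 0 < w →
    ∀ (ρ : Fin (2 * w) × (ZMod 2 × ZMod 2) ↪ Fin n) (κ : Fin (3 * w) × ZMod 2 ↪ Fin n)
      (P : CharpolyProgram K n w d s ρ κ),
      (fun X : Matrix (Fin n) (Fin n) K => X.permanent) ∈
        Local K n d ⊔ Submodule.span K (Set.range P.v) →
      2 ^ (w / 3200) ≤ 2 * s * ∑ j, P.N j ^ 4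

/-- the bound for branching programs -/
def BranchingBound : Prop :=
  ∀ (K : Type) [Field K], (2 : K) ≠ 0 → ∀ n w d N L : ℕ, 8 * w ≤ n → 6400 * d ≤ w → 0 < w →
    ∀ (ρ : Fin (2 * w) × (ZMod 2 × ZMod 2) ↪ Fin n) (κ : Fin (3 * w) × ZMod 2 ↪ Fin n)
      (H : AddSubgroup (Gam w)) (P : BranchingProgram K n w d N L ρ κ H),
      (∀ X : Matrix (Fin n) (Fin n) K,
        X.permanent = ∑ k ∈ Finset.range L, (P.M X ^ k) P.a P.b) →
      2 ^ (w / 3200) ≤ 2 * N ^ 4 * H.index

/-- The three bounds. -/
theorem result : ProgramBound ∧ CharpolyBound ∧ BranchingBound :=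
  ⟨fun K _ h2 n w d s hn hd hw ρ κ P hper =>
      part1 K h2 n w d hn hd hw ρ κ s P.N P.pos P.Y P.M P.v P.H P.entries P.gates hper,
    fun K _ _ n w d s hn hd hw ρ κ P hper =>
      part2 K n w d hn hd hw ρ κ s P.N P.pos P.M P.F P.v P.value P.entries P.sym hper,
    fun K _ h2 n w d N L hn hd hw ρ κ H P hper =>
      part3 K h2 n w d hn hd hw ρ κ N L P.M P.a P.b P.entries hper H P.sym⟩

end Pool.Agent.Results.MP_35c45d_lc.SymmetricDeterminantGates
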