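import Pool.Agent.W940.M11
import Pool.Agent.W943.Aff1
import Pool.Agent.H567.Nec.Count
import Pool.Agent.TH687.WS.Conv

/-!
# Weakly skew circuits for multiples of the permanent: the number of sources labelled by variables

Circuits are those of `Pool/Agent/H567/Nec/CircuitDef.lean`: directed acyclic graphs whose sources
carry a variable or a constant; `Circuit.size` is the number of gates; `Circuit.WeaklySkew` is the
condition of the problem; `Φ.Sub o a` says that there is a directed path from `a` to `o`.
-/

set_option autoImplicit false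

open MvPolynomial Pool.Agent.H567.Nec

namespace Pool.Agent.Results.MP_35c45d_lc.VariableLeaves

universe u v

/-- All coefficients of `F` are defined at `ε = 0`, and `F` becomes `f` for `ε = 0`. -/
def SpecializesTo {k σ : Type*} [Field k] (F : MvPolynomial σ (RatFunc k))
    (f : MvPolynomial σ k) : Prop :=
  ∀ d, (coeff d F).denom.eval 0 ≠ 0 ∧ (coeff d F).eval (RingHom.id k) 0 = coeff d f

/-- The `m × m` matrices over `k` with permanent zero are zeros of `g`. -/
def VanishesWithPermanent {k : Type*} [Field k] {m : ℕ} (g : MvPolynomial (Fin m × Fin m) k) :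
    Prop :=
  ∀ M : Matrix (Fin m) (Fin m) k, M.permanent = 0 → eval (fun v => M v.1 v.2) g = 0

open Pool.Agent.H632R2.Border (O0 φ0 mem_O0)

section Aux

variable {k : Type*} [Field k]

lemma specializes_iff {σ : Type*} (F : MvPolynomial σ (RatFunc k)) (f : MvPolynomial σ k) :
    SpecializesTo F f ↔
      ∃ F' : MvPolynomial σ (O0 k), map (O0 k).subtype F' = F ∧ map (φ0 k) F' = f := by
  constructor
  · intro h
    have hrange : F ∈ (MvPolynomial.map (σ := σ) (O0 k).subtype).range := by
      rw [RingHom.mem_range]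
      change _ ∈ Set.range _
      rw [mem_range_map_iff_coeffs_subset]
      intro x hx
      rw [Finset.mem_coe, mem_coeffs_iff] at hx
      obtain ⟨d, _, rfl⟩ := hx
      exact ⟨⟨_, (h d).1⟩, rfl⟩
    obtain ⟨F', hF'⟩ := hrange
    refine ⟨F', hF', ?_⟩
    ext d
    rw [coeff_map, ← (h d).2]
    have h1 := congrArg (coeff d) hF'
    rw [coeff_map] at h1
    rw [← h1]
    rfl
  · rintro ⟨F', hF', hf⟩ d
    have h1 := congrArg (coeff d) hF'
    rw [coeff_map] at h1
    have h2 := congrArg (coeff d) hf
    rw [coeff_map] at h2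
    rw [← h1, ← h2]
    exact ⟨(coeff d F').2, rfl⟩

/-- a nonzero polynomial over `k(ε)` has a multiple by a scalar with a nonzero limit -/
lemma exists_scale {σ : Type*} (G : MvPolynomial σ (RatFunc k)) (hG : G ≠ 0) :
    ∃ c : RatFunc k, c ≠ 0 ∧ ∃ g : MvPolynomial σ k, g ≠ 0 ∧ SpecializesTo (C c * G) g := by
  classical
  have hne : G.support.Nonempty := by
    rw [Finset.nonempty_iff_ne_empty, Ne, support_eq_empty]
    exact hG
  obtain ⟨d₀, hd₀, hmax⟩ := Finset.exists_max_image G.support
    (fun d => (O0 k).valuation (coeff d G)) hne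
  have hc0 : coeff d₀ G ≠ 0 := mem_support_iff.1 hd₀
  have hmem : ∀ d, (coeff d₀ G)⁻¹ * coeff d G ∈ O0 k := by
    intro d
    rw [← ValuationSubring.valuation_le_one_iff, map_mul, map_inv₀]
    by_cases hd : d ∈ G.support
    · have h1 := hmax d hd
      have h2 : (O0 k).valuation (coeff d₀ G) ≠ 0 := by
        rw [Ne, map_eq_zero]; exact hc0
      calc ((O0 k).valuation (coeff d₀ G))⁻¹ * (O0 k).valuation (coeff d G)
          ≤ ((O0 k).valuation (coeff d₀ G))⁻¹ * (O0 k).valuation (coeff d₀ G) :=
            mul_le_mul_right h1 _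
        _ = 1 := inv_mul_cancel₀ h2
    · rw [notMem_support_iff.1 hd, map_zero, mul_zero]
      exact zero_le_one
  refine ⟨(coeff d₀ G)⁻¹, inv_ne_zero hc0, ?_⟩
  have hrange : C (coeff d₀ G)⁻¹ * G ∈ (MvPolynomial.map (σ := σ) (O0 k).subtype).range := by
    rw [RingHom.mem_range]
    change _ ∈ Set.range _
    rw [mem_range_map_iff_coeffs_subset]
    intro x hx
    rw [Finset.mem_coe, mem_coeffs_iff] at hx
    obtain ⟨d, _, rfl⟩ := hx
    refine ⟨⟨_, hmem d⟩, ?_⟩
    rw [coeff_C_mul]
    rfl
  obtain ⟨G', hG'⟩ := hrange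
  refine ⟨map (φ0 k) G', ?_, (specializes_iff _ _).2 ⟨G', hG', rfl⟩⟩
  intro h0
  have h1 := congrArg (coeff d₀) hG'
  rw [coeff_map, coeff_C_mul, inv_mul_cancel₀ hc0] at h1
  have h2 : coeff d₀ G' = 1 := Subtype.ext h1
  have h3 := congrArg (coeff d₀) h0
  rw [coeff_map, h2, map_one, coeff_zero] at h3
  exact one_ne_zero h3

lemma SpecializesTo.mul {σ : Type*} {F G : MvPolynomial σ (RatFunc k)} {f g : MvPolynomial σ k}
    (hF : SpecializesTo F f) (hG : SpecializesTo G g) : SpecializesTo (F * G) (f * g) := by
  obtain ⟨F', h1, h2⟩ := (specializes_iff _ _).1 hF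
  obtain ⟨G', h3, h4⟩ := (specializes_iff _ _).1 hG
  exact (specializes_iff _ _).2 ⟨F' * G', by rw [map_mul, h1, h3], by rw [map_mul, h2, h4]⟩

end Aux

/-- the first part -/
theorem limit_bound {k : Type u} [Field k] [CharZero k] (m N δ : ℕ) (hδ : 1 ≤ δ)
    (hm : 55000 * δ ≤ m) (A : Matrix (Fin N) (Fin N) (MvPolynomial (Fin m × Fin m) (RatFunc k)))
    (hA : ∀ i j, (A i j).totalDegree ≤ δ) (g : MvPolynomial (Fin m × Fin m) k) (hg : g ≠ 0)
    (hv : VanishesWithPermanent g) (hdet : SpecializesTo A.det g) :
    m ^ 3 ≤ 2200000 * (δ * N) := by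
  refine Pool.Agent.W940.M.multiples_bound k m N δ hδ hm A hA g hg hdet fun u => ?_
  obtain ⟨n, hn⟩ := Pool.Agent.W940.M.perN_vanish k g (fun x hx => by
    have h := hv (Matrix.of fun i j => x (i, j)) (by
      rw [← hx]
      unfold Pool.Agent.H546R2.SL.perN Matrix.permanent
      rw [map_sum]
      simp only [map_prod, Matrix.of_apply, eval_X])
    exact h) u
  refine ⟨n + 1, ?_⟩
  have h : (pderiv u (Pool.Agent.H546R2.SL.perN k m) * g) ^ (n + 1) =
      pderiv u (Pool.Agent.H546R2.SL.perN k m) ^ n * g *
        (pderiv u (Pool.Agent.H546R2.SL.perN k m) * g ^ n) := by ring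
  rw [h]
  exact hn.mul_right _


/-- Given input polynomials `q i` for the variables of the circuit, the number of sources which
carry a variable with a nonconstant input and from which the node `o` can be reached. -/
noncomputable def varSources {K : Type*} {σ : Type*} {S : Type*} [Field K] [CommRing S]
    [Algebra K S] (Φ : Circuit K σ) (q : σ → S) (o : Fin Φ.N) : ℕ :=
  {a | Φ.Sub o a ∧ ∃ v, Φ.node a = Node.var v ∧ q v ∉ Set.range (algebraMap K S)}.ncard

/-- quotients -/
theorem quotient_bound {k : Type u} [Field k] [CharZero k] (m N δ : ℕ) (hδ : 1 ≤ δ)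
    (hm : 55000 * δ ≤ m)
    (A : Matrix (Fin (N + 1)) (Fin (N + 1)) (MvPolynomial (Fin m × Fin m) (RatFunc k)))
    (hA : ∀ i j, (A i j).totalDegree ≤ δ)
    (F G : MvPolynomial (Fin m × Fin m) (RatFunc k)) (hG : G ≠ 0) (hdet : A.det = F * G)
    (g : MvPolynomial (Fin m × Fin m) k) (hg : g ≠ 0) (hv : VanishesWithPermanent g)
    (hF : SpecializesTo F g) : m ^ 3 ≤ 2200000 * (δ * (N + 1)) := by
  obtain ⟨c, hc, b, hb, hcb⟩ := exists_scale G hG
  have hgb : g * b ≠ 0 := mul_ne_zero hg hb
  have hvb : VanishesWithPermanent (g * b) := by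
    intro M hM
    rw [map_mul, hv M hM, zero_mul]
  have hlim : SpecializesTo (C c * A.det) (g * b) := by
    have h := hF.mul hcb
    have e : F * (C c * G) = C c * A.det := by rw [hdet]; ring
    rwa [e] at h
  have h1 : (A.updateRow 0 ((C c : MvPolynomial (Fin m × Fin m) (RatFunc k)) • A 0)).det =
      C c * A.det := by
    rw [Matrix.det_updateRow_smul, Matrix.updateRow_eq_self]
  refine limit_bound m (N + 1) δ hδ hm
    (A.updateRow 0 ((C c : MvPolynomial (Fin m × Fin m) (RatFunc k)) • A 0)) ?_ (g * b) hgb hvb ?_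
  · intro i j
    by_cases hi : i = 0
    · subst hi
      rw [Matrix.updateRow_self, Pi.smul_apply, smul_eq_mul]
      refine (totalDegree_mul _ _).trans ?_
      rw [totalDegree_C, zero_add]
      exact hA _ _
    · rw [Matrix.updateRow_ne hi]
      exact hA i j
  · rw [h1]
    exact hlim

/-- the general bound for circuits over `k(ε)` -/
theorem circuit_bound {k : Type u} [Field k] [CharZero k] (m δ : ℕ) (hδ : 1 ≤ δ)
    (hm : 55000 * δ ≤ m) {σ : Type v} (Φ : Circuit (RatFunc k) σ) (hΦ : Φ.WeaklySkew)
    (o : Fin Φ.N) (q : σ → MvPolynomial (Fin m × Fin m) (RatFunc k))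
    (hq : ∀ i, (q i).totalDegree ≤ δ)
    (F G : MvPolynomial (Fin m × Fin m) (RatFunc k)) (hG : G ≠ 0)
    (hdet : aeval q (Φ.value o) = F * G)
    (g : MvPolynomial (Fin m × Fin m) k) (hg : g ≠ 0) (hv : VanishesWithPermanent g)
    (hF : SpecializesTo F g) : m ^ 3 ≤ 2200000 * (δ * (varSources Φ q o + 1)) := by
  obtain ⟨n, hn, A, hA, hAdet⟩ := Pool.Agent.TH687.WS.exists_det Φ hΦ o q
    (restrictTotalDegree (Fin m × Fin m) (RatFunc k) δ)
    ((mem_restrictTotalDegree _ _ _).2 (by rw [totalDegree_one]; exact Nat.zero_le _))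
    (fun i => (mem_restrictTotalDegree _ _ _).2 (hq i))
  have hn' : n ≤ varSources Φ q o := by
    refine hn.trans (le_of_eq ?_)
    unfold varSources
    rw [← Set.ncard_coe_finset]
    refine congrArg Set.ncard (Set.ext fun a => ?_)
    simp only [Finset.coe_filter, Finset.mem_univ, true_and]
    rfl
  have h := quotient_bound m n δ hδ hm A (fun i j => (mem_restrictTotalDegree _ _ _).1 (hA i j))
    F G hG (by rw [hAdet, hdet]) g hg hv hF
  refine h.trans (Nat.mul_le_mul_left _ (Nat.mul_le_mul_left _ (by omega)))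

/-- limits are compatible with substitutions of polynomials over the integers -/
lemma SpecializesTo.subst {k σ τ : Type*} [Field k] {F : MvPolynomial σ (RatFunc k)}
    {f : MvPolynomial σ k} (h : SpecializesTo F f) (Q : σ → MvPolynomial τ ℤ) :
    SpecializesTo (aeval (fun i => map (Int.castRingHom (RatFunc k)) (Q i)) F)
      (aeval (fun i => map (Int.castRingHom k) (Q i)) f) := by
  obtain ⟨F', h1, h2⟩ := (specializes_iff _ _).1 h
  refine (specializes_iff _ _).2
    ⟨bind₁ (fun i => map (Int.castRingHom (O0 k)) (Q i)) F', ?_, ?_⟩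
  · rw [map_bind₁, h1, aeval_eq_bind₁]
    congr 2
    funext i
    rw [map_map]
    congr 1
  · rw [map_bind₁, h2, aeval_eq_bind₁]
    congr 2
    funext i
    rw [map_map]
    congr 2
    exact RingHom.ext_int _ _

/-- an injection is the restriction of a bijection from a sum -/
lemma exists_sum_equiv {n m : ℕ} (r : Fin n → Fin m) (hr : Function.Injective r) :
    ∃ e : Fin n ⊕ Fin (m - n) ≃ Fin m, ∀ i, e (Sum.inl i) = r i := by
  classical
  have hcard : Fintype.card ((Set.range r)ᶜ : Set (Fin m)) = m - n := by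
    rw [Fintype.card_compl_set, Set.card_range_of_injective hr, Fintype.card_fin, Fintype.card_fin]
  refine ⟨((Equiv.ofInjective r hr).sumCongr (Fintype.equivFinOfCardEq hcard).symm).trans
    (Equiv.Set.sumCompl (Set.range r)), fun i => ?_⟩
  simp

/-- the generic matrix -/
noncomputable def generic (R : Type*) [CommRing R] (m : ℕ) :
    Matrix (Fin m) (Fin m) (MvPolynomial (Fin m × Fin m) R) :=
  Matrix.of fun i j => X (i, j)

lemma permanent_map {ι R S : Type*} [Fintype ι] [DecidableEq ι] [CommRing R] [CommRing S]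
    (f : R →+* S) (M : Matrix ι ι R) : (M.map f).permanent = f M.permanent := by
  simp [Matrix.permanent, map_sum, map_prod]

theorem permanent_submatrix_equiv {ι κ R : Type*} [Fintype ι] [DecidableEq ι] [Fintype κ]
    [DecidableEq κ] [CommRing R] (M : Matrix ι ι R) (r c : κ ≃ ι) :
    (M.submatrix r c).permanent = M.permanent := by
  unfold Matrix.permanent
  rw [← (Equiv.equivCongr c r).sum_comp]
  refine Finset.sum_congr rfl fun σ _ => ?_
  rw [← c.prod_comp]
  refine Finset.prod_congr rfl fun i _ => ?_
  simp [Equiv.equivCongr]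

lemma permanent_generic_ne_zero (k : Type*) [Field k] (m : ℕ) :
    (generic k m).permanent ≠ 0 := by
  intro h0
  have h1 := congrArg (eval fun v : Fin m × Fin m => if v.1 = v.2 then (1 : k) else 0) h0
  rw [map_zero] at h1
  have h2 : eval (fun v : Fin m × Fin m => if v.1 = v.2 then (1 : k) else 0)
      (generic k m).permanent = (1 : Matrix (Fin m) (Fin m) k).permanent := by
    unfold Matrix.permanent generic
    rw [map_sum]
    simp only [map_prod, Matrix.of_apply, eval_X, Matrix.one_apply]
  rw [h2, Matrix.permanent_one] at h1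
  exact one_ne_zero h1

lemma vanishes_permanent (k : Type*) [Field k] (m : ℕ) (q : MvPolynomial (Fin m × Fin m) k) :
    VanishesWithPermanent ((generic k m).permanent * q) := by
  intro M hM
  rw [map_mul]
  have h2 : eval (fun v => M v.1 v.2) (generic k m).permanent = M.permanent := by
    unfold Matrix.permanent generic
    rw [map_sum]
    simp only [map_prod, Matrix.of_apply, eval_X]
  rw [h2, hM, zero_mul]

/-- the submatrix version -/
theorem local_bound {k : Type u} [Field k] [CharZero k] (m n : ℕ) (hn : 55000 ≤ n)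
    (r c : Fin n → Fin m) (hr : Function.Injective r) (hc : Function.Injective c)
    (Φ : Circuit (RatFunc k) (Fin m × Fin m)) (hΦ : Φ.WeaklySkew) (o : Fin Φ.N)
    (hF : SpecializesTo (Φ.value o) (generic k m).permanent) :
    n ^ 3 ≤ 2200000 * ({a | Φ.Sub o a ∧ ∃ i j, Φ.node a = Node.var (r i, c j)}.ncard + 1) := by
  classical
  obtain ⟨er, her⟩ := exists_sum_equiv r hr
  obtain ⟨ec, hec⟩ := exists_sum_equiv c hc
  -- the substitution over the integers
  let M : Matrix (Fin m) (Fin m) (MvPolynomial (Fin n × Fin n) ℤ) :=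
    (Matrix.fromBlocks (generic ℤ n) 0 0 (1 : Matrix (Fin (m - n)) (Fin (m - n)) _)).submatrix
      er.symm ec.symm
  let Q : Fin m × Fin m → MvPolynomial (Fin n × Fin n) ℤ := fun v => M v.1 v.2
  have hM : M.permanent = (generic ℤ n).permanent := by
    rw [permanent_submatrix_equiv, Pool.Agent.W943.Aff.permanent_fromBlocks_one]
  have hgen : ∀ (R : Type u) [CommRing R], aeval (fun i => map (Int.castRingHom R) (Q i))
      (generic R m).permanent = (generic R n).permanent := by
    intro R _
    have e1 : aeval (fun i => map (Int.castRingHom R) (Q i)) (generic R m).permanent =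
        (M.map (map (Int.castRingHom R))).permanent := by
      unfold Matrix.permanent generic
      rw [map_sum]
      simp only [map_prod, Matrix.of_apply, aeval_X, Matrix.map_apply, Q]
    rw [e1, permanent_map, hM, ← permanent_map]
    congr 1
    ext i j : 2
    simp [generic]
  have hlim : SpecializesTo (aeval (fun i => map (Int.castRingHom (RatFunc k)) (Q i)) (Φ.value o))
      (generic k n).permanent := by
    have h := hF.subst Q
    rwa [hgen k] at h
  -- the inputs have degree at most one, and are constant outside the submatrix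
  have hQ1 : ∀ v : Fin m × Fin m, ((∃ i j, v = (r i, c j)) ∧ (Q v).totalDegree ≤ 1) ∨
      ∃ z : ℤ, Q v = C z := by
    rintro ⟨i, j⟩
    obtain ⟨i', rfl⟩ := er.surjective i
    obtain ⟨j', rfl⟩ := ec.surjective j
    have e : Q (er i', ec j') = (Matrix.fromBlocks (generic ℤ n) 0 0
        (1 : Matrix (Fin (m - n)) (Fin (m - n)) _)) i' j' := by
      simp only [Q, M, Matrix.submatrix_apply, Equiv.symm_apply_apply]
    rcases i' with i' | i' <;> rcases j' with j' | j'
    · left
      refine ⟨⟨i', j', by rw [her, hec]⟩, ?_⟩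
      rw [e, Matrix.fromBlocks_apply₁₁]
      unfold generic
      rw [Matrix.of_apply]
      exact (totalDegree_X _).le
    · right
      exact ⟨0, by rw [e, Matrix.fromBlocks_apply₁₂, Matrix.zero_apply, C_0]⟩
    · right
      exact ⟨0, by rw [e, Matrix.fromBlocks_apply₂₁, Matrix.zero_apply, C_0]⟩
    · right
      rw [e, Matrix.fromBlocks_apply₂₂, Matrix.one_apply]
      by_cases h : i' = j'
      · exact ⟨1, by rw [if_pos h, C_1]⟩
      · exact ⟨0, by rw [if_neg h, C_0]⟩
  have hdeg : ∀ v, (map (Int.castRingHom (RatFunc k)) (Q v)).totalDegree ≤ 1 := by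
    intro v
    refine (Pool.Agent.H632R2.Border.totalDegree_map_le _ _).trans ?_
    rcases hQ1 v with h | ⟨z, hz⟩
    · exact h.2
    · rw [hz, totalDegree_C]
      exact Nat.zero_le _
  have h := circuit_bound n 1 le_rfl (by omega) Φ hΦ o _ hdeg _ 1 one_ne_zero
    (mul_one _).symm (generic k n).permanent (permanent_generic_ne_zero k n)
    (by
      have h := vanishes_permanent k n 1
      rwa [mul_one] at h) hlim
  refine h.trans (Nat.mul_le_mul_left _ ?_)
  rw [one_mul]
  refine Nat.add_le_add_right ?_ 1
  unfold varSources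
  refine Set.ncard_le_ncard ?_ (Set.toFinite _)
  rintro a ⟨h1, v, hv, h2⟩
  refine ⟨h1, ?_⟩
  rcases hQ1 v with ⟨⟨i, j, rfl⟩, _⟩ | ⟨z, hz⟩
  · exact ⟨i, j, hv⟩
  · exfalso
    apply h2
    refine ⟨(z : RatFunc k), ?_⟩
    change C (z : RatFunc k) = map (Int.castRingHom (RatFunc k)) (Q v)
    rw [hz, map_C]
    rfl

/-- a node of a circuit can be reached from at most `size + 1` sources -/
lemma varSources_le {K : Type*} {σ : Type*} {S : Type*} [Field K] [CommRing S]
    [Algebra K S] (Φ : Circuit K σ) (q : σ → S) (o : Fin Φ.N) :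
    varSources Φ q o ≤ Φ.size + 1 := by
  classical
  refine le_trans ?_ (Circuit.card_sources_le Φ o)
  rw [← Set.ncard_coe_finset]
  refine Set.ncard_le_ncard ?_ (Set.toFinite _)
  rintro a ⟨h1, v, hv, _⟩
  simp only [Finset.coe_filter, Finset.mem_univ, true_and]
  refine ⟨h1, ?_⟩
  rw [hv]
  exact fun h => h

/-- **Weakly skew circuits for multiples of the permanent.**  Let `k` be a field of characteristic
zero, `δ ≥ 1` and `m ≥ 55000 δ`. Consider weakly skew circuits whose variables are given arbitrary
polynomials `q i` of degree at most `δ` in the entries of the generic `m × m` matrix as inputs (for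
example: the circuit has the variables `Fin m × Fin m` and `q = X`), and let `s` be the number of
sources of the circuit which carry a variable with nonconstant input and are connected to the
output (sources with constants, additions and products are not counted; `s ≤ size + 1`).

1. If the output is a nonzero polynomial that vanishes at all `m × m` matrices over `k` with
   permanent zero (for example a nonzero multiple of the permanent, of any degree), then
   `m ^ 3 ≤ 2200000 δ (s + 1)`.
2. The same holds for circuits over `k(ε)` (`RatFunc k`) whose output tends, for `ε → 0`, to a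
   nonzero polynomial that vanishes at all `m × m` matrices over `k` with permanent zero, and more
   generally if the output is `F * G`, where `G ≠ 0` is arbitrary and `F` tends to such a
   polynomial.
3. In a weakly skew circuit over `k(ε)` whose output tends to the `m × m` permanent, for `n ≥ 55000`
   and for each choice of `n` rows and `n` columns, at least `n ^ 3 / 2200000 - 1` sources carry
   variables of the submatrix of the entries in these rows and columns.
4. `s ≤ size + 1`; hence the number of gates is at least `m ^ 3 / (2200000 δ) - 2` in 1 and 2. -/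
theorem result (k : Type u) [Field k] [CharZero k] (m δ : ℕ) (hδ : 1 ≤ δ)
    (hm : 55000 * δ ≤ m) :
    (∀ (σ : Type v) (Φ : Circuit k σ), Φ.WeaklySkew → ∀ (o : Fin Φ.N)
      (q : σ → MvPolynomial (Fin m × Fin m) k), (∀ i, (q i).totalDegree ≤ δ) →
      aeval q (Φ.value o) ≠ 0 → VanishesWithPermanent (aeval q (Φ.value o)) →
      m ^ 3 ≤ 2200000 * (δ * (varSources Φ q o + 1))) ∧
    (∀ (σ : Type v) (Φ : Circuit (RatFunc k) σ), Φ.WeaklySkew → ∀ (o : Fin Φ.N)
      (q : σ → MvPolynomial (Fin m × Fin m) (RatFunc k)), (∀ i, (q i).totalDegree ≤ δ) →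
      ∀ F G : MvPolynomial (Fin m × Fin m) (RatFunc k), G ≠ 0 → aeval q (Φ.value o) = F * G →
      ∀ g : MvPolynomial (Fin m × Fin m) k, g ≠ 0 → VanishesWithPermanent g →
      SpecializesTo F g → m ^ 3 ≤ 2200000 * (δ * (varSources Φ q o + 1))) ∧
    (∀ (Φ : Circuit (RatFunc k) (Fin m × Fin m)), Φ.WeaklySkew → ∀ (o : Fin Φ.N),
      SpecializesTo (Φ.value o) (Matrix.of (fun i j : Fin m =>
        (X (i, j) : MvPolynomial (Fin m × Fin m) k))).permanent →
      ∀ (n : ℕ) (r c : Fin n → Fin m), 55000 ≤ n → Function.Injective r → Function.Injective c →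
      n ^ 3 ≤ 2200000 *
        ({a | Φ.Sub o a ∧ ∃ i j, Φ.node a = Node.var (r i, c j)}.ncard + 1)) ∧
    (∀ (σ : Type v) (Φ : Circuit k σ) (q : σ → MvPolynomial (Fin m × Fin m) k) (o : Fin Φ.N),
      varSources Φ q o ≤ Φ.size + 1) ∧
    (∀ (σ : Type v) (Φ : Circuit (RatFunc k) σ)
      (q : σ → MvPolynomial (Fin m × Fin m) (RatFunc k)) (o : Fin Φ.N),
      varSources Φ q o ≤ Φ.size + 1) := by
  refine ⟨?_, ?_, ?_, fun σ Φ q o => varSources_le Φ q o, fun σ Φ q o => varSources_le Φ q o⟩
  · intro σ Φ hΦ o q hq h0 hv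
    obtain ⟨n, hn, A, hA, hAdet⟩ := Pool.Agent.TH687.WS.exists_det Φ hΦ o q
      (restrictTotalDegree (Fin m × Fin m) k δ)
      ((mem_restrictTotalDegree _ _ _).2 (by rw [totalDegree_one]; exact Nat.zero_le _))
      (fun i => (mem_restrictTotalDegree _ _ _).2 (hq i))
    have hn' : n ≤ varSources Φ q o := by
      refine hn.trans (le_of_eq ?_)
      unfold varSources
      rw [← Set.ncard_coe_finset]
      refine congrArg Set.ncard (Set.ext fun a => ?_)
      simp only [Finset.coe_filter, Finset.mem_univ, true_and]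
      rfl
    have h := Pool.Agent.W940.M.vanish_bound k m (n + 1) δ hδ hm A
      (fun i j => (mem_restrictTotalDegree _ _ _).1 (hA i j)) (by rw [hAdet]; exact h0)
      (fun x hx => by
        have h := hv (Matrix.of fun i j => x (i, j)) (by
          rw [← hx]
          unfold Pool.Agent.H546R2.SL.perN Matrix.permanent
          rw [map_sum]
          simp only [map_prod, Matrix.of_apply, eval_X])
        rw [hAdet]
        exact h)
    exact h.trans (Nat.mul_le_mul_left _ (Nat.mul_le_mul_left _ (by omega)))
  · intro σ Φ hΦ o q hq F G hG hdet g hg hv hF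
    exact circuit_bound m δ hδ hm Φ hΦ o q hq F G hG hdet g hg hv hF
  · intro Φ hΦ o hF n r c hn hr hc
    exact local_bound m n hn r c hr hc Φ hΦ o hF

end Pool.Agent.Results.MP_35c45d_lc.VariableLeaves
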